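import Pool.Agent.N856.QL.Stm2

/-!
# QL (project of helper856), part REAL (helper866): primes in given classes with given symbols
-/

set_option autoImplicit false

open scoped Classical

namespace Pool.Agent.N866.QL.REAL

open Pool.Agent.Y703.CQ (nr)

lemma nr_congr {u p q : ℕ} (h : p % u = q % u) : nr u p = nr u q := by
  unfold nr
  rw [(ZMod.natCast_eq_natCast_iff' p q u).2 h]

/-- an element with given symbol modulo an odd prime -/
lemma exists_sym {u : ℕ} (hu : u.Prime) (h2 : u ≠ 2) (z : ZMod 2) :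
    ∃ g : ℕ, g.Coprime u ∧ nr u g = z := by
  have hz : z = 0 ∨ z = 1 := by
    fin_cases z
    · exact Or.inl rfl
    · exact Or.inr rfl
  rcases hz with rfl | rfl
  · refine ⟨1, Nat.coprime_one_left u, ?_⟩
    unfold nr
    rw [Nat.cast_one, if_pos IsSquare.one]
  · have : Fact u.Prime := ⟨hu⟩
    obtain ⟨a, ha⟩ := FiniteField.exists_nonsquare (F := ZMod u) (by
      rw [ZMod.ringChar_zmod_n]
      exact h2)
    refine ⟨a.val, ?_, ?_⟩
    · rw [Nat.coprime_comm, Nat.Prime.coprime_iff_not_dvd hu]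
      intro h
      have h1 : (a.val : ZMod u) = 0 := (ZMod.natCast_eq_zero_iff _ _).2 h
      rw [ZMod.natCast_zmod_val] at h1
      rw [h1] at ha
      exact ha IsSquare.zero
    · unfold nr
      rw [ZMod.natCast_zmod_val, if_neg ha]

lemma step {M : ℕ} (hM : 8 ∣ M) (hM0 : 0 < M) (N : ℕ) (τ : ℕ → ℕ) (hτ : ∀ i, (τ i).Coprime M)
    (x : ℕ → ℕ → ZMod 2) (k : ℕ) : ∃ q : ℕ → ℕ,
    (∀ i < k, max N M < q i ∧ (q i).Prime ∧ q i % M = τ i % M) ∧
      ∀ i j, i < j → j < k → q i < q j ∧ nr (q i) (q j) = x i j := by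
  induction k with
  | zero => exact ⟨fun _ => 0, fun i hi => absurd hi (Nat.not_lt_zero i),
      fun i j _ hj => absurd hj (Nat.not_lt_zero j)⟩
  | succ k ih =>
    obtain ⟨q, hq1, hq2⟩ := ih
    have hqM : ∀ i < k, M < q i := fun i hi => lt_of_le_of_lt (le_max_right _ _) (hq1 i hi).1
    have hM8 : 8 ≤ M := Nat.le_of_dvd hM0 hM
    have hg : ∀ i, ∃ g : ℕ, i < k → g.Coprime (q i) ∧ nr (q i) g = x i k := by
      intro i
      by_cases hi : i < k
      · obtain ⟨g, hg⟩ := exists_sym (hq1 i hi).2.1 (by have := hqM i hi; omega) (x i k)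
        exact ⟨g, fun _ => hg⟩
      · exact ⟨0, fun h => absurd h hi⟩
    choose g hg using hg
    have hne : ∀ i < k, ∀ j < k, i ≠ j → q i ≠ q j := by
      intro i hi j hj hij
      rcases lt_or_gt_of_ne hij with h | h
      · exact (hq2 i j h hj).1.ne
      · exact (hq2 j i h hi).1.ne'
    let b := Nat.chineseRemainderOfFinset g q (Finset.range k)
      (fun i hi => (hq1 i (Finset.mem_range.1 hi)).2.1.ne_zero)
      (fun i hi j hj hij => (Nat.coprime_primes (hq1 i (Finset.mem_range.1 hi)).2.1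
        (hq1 j (Finset.mem_range.1 hj)).2.1).2
          (hne i (Finset.mem_range.1 hi) j (Finset.mem_range.1 hj) hij))
    have hb : ∀ i < k, (b : ℕ) ≡ g i [MOD q i] := fun i hi => b.2 i (Finset.mem_range.2 hi)
    have hco : M.Coprime (∏ i ∈ Finset.range k, q i) := by
      refine Nat.Coprime.prod_right fun i hi => ?_
      have hi' := Finset.mem_range.1 hi
      rw [Nat.coprime_comm, Nat.Prime.coprime_iff_not_dvd (hq1 i hi').2.1]
      intro h
      exact absurd (Nat.le_of_dvd hM0 h) (not_le.2 (hqM i hi'))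
    obtain ⟨a, ha1, ha2⟩ := Nat.chineseRemainder hco (τ k) b
    have ha3 : ∀ i < k, a ≡ g i [MOD q i] := fun i hi =>
      (ha2.of_dvd (Finset.dvd_prod_of_mem q (Finset.mem_range.2 hi))).trans (hb i hi)
    have hac : a.Coprime (M * ∏ i ∈ Finset.range k, q i) := by
      refine Nat.Coprime.mul_right ?_ (Nat.Coprime.prod_right fun i hi => ?_)
      · exact (Nat.ModEq.gcd_eq ha1).trans (hτ k)
      · have hi' := Finset.mem_range.1 hi
        exact (Nat.ModEq.gcd_eq (ha3 i hi')).trans (hg i hi').1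
    have hQ0 : M * ∏ i ∈ Finset.range k, q i ≠ 0 := by
      refine Nat.mul_ne_zero hM0.ne' (Finset.prod_ne_zero_iff.2 fun i hi => ?_)
      exact (hq1 i (Finset.mem_range.1 hi)).2.1.ne_zero
    obtain ⟨p, hp1, hp2, hp3⟩ := Nat.forall_exists_prime_gt_and_modEq
      (max N M + ∑ i ∈ Finset.range k, q i) hQ0 hac
    have hpq : ∀ i < k, q i < p := by
      intro i hi
      have h1 : q i ≤ ∑ i ∈ Finset.range k, q i :=
        Finset.single_le_sum (fun _ _ => Nat.zero_le _) (Finset.mem_range.2 hi)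
      omega
    have hpM : p % M = τ k % M := (hp3.of_dvd (Dvd.intro _ rfl)).trans ha1
    have hpg : ∀ i < k, p % q i = g i % q i := fun i hi =>
      (hp3.of_dvd ((Finset.dvd_prod_of_mem q (Finset.mem_range.2 hi)).mul_left M)).trans (ha3 i hi)
    refine ⟨Function.update q k p, ?_, ?_⟩
    · intro i hi
      rcases Nat.lt_succ_iff_lt_or_eq.1 hi with h | rfl
      · rw [Function.update_of_ne h.ne]
        exact hq1 i h
      · rw [Function.update_self]
        exact ⟨by omega, hp2, hpM⟩
    · intro i j hij hj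
      rcases Nat.lt_succ_iff_lt_or_eq.1 hj with h | rfl
      · rw [Function.update_of_ne h.ne, Function.update_of_ne (hij.trans h).ne]
        exact hq2 i j hij h
      · rw [Function.update_self, Function.update_of_ne hij.ne]
        exact ⟨hpq i hij, (nr_congr (hpg i hij)).trans (hg i hij).2⟩

theorem t_REAL : Pool.Agent.N856.QL.S_REAL := by
  intro M hM hM0 k N τ hτ x
  obtain ⟨q, hq1, hq2⟩ := step hM hM0 N (fun i => if h : i < k then τ ⟨i, h⟩ else 1) (fun i => by
      by_cases h : i < k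
      · simp only [h, dif_pos]
        exact hτ _
      · simp only [h, dif_neg, not_false_eq_true]
        exact Nat.coprime_one_left M)
    (fun i j => if h : i < k ∧ j < k then x ⟨i, h.1⟩ ⟨j, h.2⟩ else 0) k
  refine ⟨fun i => q i, ?_, ?_, ?_⟩
  · intro i j hij
    exact (hq2 i j hij j.2).1
  · intro i
    obtain ⟨h1, h2, h3⟩ := hq1 i i.2
    refine ⟨lt_of_le_of_lt (le_max_left _ _) h1, h2, ?_⟩
    simpa using h3
  · intro i j hij
    have h1 := (hq2 i j hij j.2).2
    simpa using h1

end Pool.Agent.N866.QL.REAL
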