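import Pool.Agent.N856.QL.Stm2

/-!
# QL (project of helper856), part SURJ (helper866): a class with prescribed Jacobi symbols
-/

set_option autoImplicit false

open scoped Classical

namespace Pool.Agent.N866.QL.SURJ

open Finset

/-- numbers with even exponents are squares -/
lemma isSquare_of_even {n : ℕ} (hn : n ≠ 0) (h : ∀ p, Even (n.factorization p)) : IsSquare n := by
  refine ⟨∏ p ∈ n.primeFactors, p ^ (n.factorization p / 2), ?_⟩
  rw [← Finset.prod_mul_distrib]
  conv_lhs => rw [← Nat.prod_factorization_pow_eq_self hn]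
  rw [Finsupp.prod, Nat.support_factorization]
  refine Finset.prod_congr rfl fun p _ => ?_
  rw [← pow_add]
  congr 1
  obtain ⟨r, hr⟩ := h p
  omega

/-- the sign -/
def sg (z : ZMod 2) : ℤ := if z = 0 then 1 else -1

lemma sg_zero : sg 0 = 1 := rfl

lemma sg_add (a b : ZMod 2) : sg (a + b) = sg a * sg b := by
  revert a b
  decide

lemma sg_sum (s : Finset ℕ) (y : ℕ → ZMod 2) : sg (∑ p ∈ s, y p) = ∏ p ∈ s, sg (y p) := by
  induction s using Finset.induction_on with
  | empty => rw [Finset.sum_empty, Finset.prod_empty, sg_zero]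
  | insert a s ha ih => rw [Finset.sum_insert ha, Finset.prod_insert ha, sg_add, ih]

lemma two_cases (z : ZMod 2) : z = 0 ∨ z = 1 := by
  revert z
  decide

/-- the linear algebra -/
lemma solve (𝒟 : Finset ℕ) (h𝒟 : ∀ d ∈ 𝒟, Squarefree d)
    (hT : ∀ T ⊆ 𝒟, T.Nonempty → ¬ IsSquare (∏ d ∈ T, d)) (z : ℕ → ZMod 2) :
    ∃ y : ℕ → ZMod 2, ∀ d ∈ 𝒟, ∑ p ∈ d.primeFactors, y p = z d := by
  let L : (ℕ → ZMod 2) →ₗ[ZMod 2] (𝒟 → ZMod 2) :=
    LinearMap.pi fun d => ∑ p ∈ (d : ℕ).primeFactors, LinearMap.proj p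
  have hL : ∀ (y : ℕ → ZMod 2) (d : 𝒟), L y d = ∑ p ∈ (d : ℕ).primeFactors, y p := by
    intro y d
    change (∑ p ∈ (d : ℕ).primeFactors,
      (LinearMap.proj p : (ℕ → ZMod 2) →ₗ[ZMod 2] ZMod 2)) y = _
    rw [LinearMap.sum_apply]
    rfl
  by_cases hr : LinearMap.range L = ⊤
  · obtain ⟨y, hy⟩ := LinearMap.range_eq_top.1 hr (fun d => z d)
    refine ⟨y, fun d hd => ?_⟩
    have h1 := congrFun hy ⟨d, hd⟩
    rw [hL] at h1
    exact h1
  · exfalso
    obtain ⟨f, hf0, hf⟩ := Submodule.exists_le_ker_of_lt_top _ (lt_top_iff_ne_top.2 hr)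
    let t : ℕ → ZMod 2 := fun d => if h : d ∈ 𝒟 then f (Pi.single ⟨d, h⟩ 1) else 0
    have hft : ∀ v : 𝒟 → ZMod 2, f v = ∑ d : 𝒟, v d * t d := by
      intro v
      rw [LinearMap.pi_apply_eq_sum_univ f v]
      refine Finset.sum_congr rfl fun d _ => ?_
      have h1 : t d = f (Pi.single d 1) := by
        change (if h : (d : ℕ) ∈ 𝒟 then f (Pi.single ⟨d, h⟩ 1) else 0) = _
        rw [dif_pos d.2]
      rw [h1, smul_eq_mul]
      congr 2
      funext j
      by_cases hj : d = j
      · subst hj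
        rw [if_pos rfl, Pi.single_eq_same]
      · rw [if_neg hj, Pi.single_eq_of_ne (Ne.symm hj)]
    let T : Finset ℕ := 𝒟.filter fun d => t d = 1
    have hTsub : T ⊆ 𝒟 := Finset.filter_subset _ _
    have hTne : T.Nonempty := by
      by_contra hcon
      rw [Finset.not_nonempty_iff_eq_empty] at hcon
      apply hf0
      refine LinearMap.ext fun v => ?_
      rw [hft, LinearMap.zero_apply]
      refine Finset.sum_eq_zero fun d _ => ?_
      rcases two_cases (t d) with h1 | h1
      · rw [h1, mul_zero]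
      · exfalso
        have h2 : (d : ℕ) ∈ T := Finset.mem_filter.2 ⟨d.2, h1⟩
        rw [hcon] at h2
        exact Finset.notMem_empty _ h2
    have hne : ∀ d ∈ T, d ≠ 0 := fun d hd => (h𝒟 d (hTsub hd)).ne_zero
    refine hT T hTsub hTne (isSquare_of_even (Finset.prod_ne_zero_iff.2 hne) fun p => ?_)
    rw [Nat.factorization_prod hne, Finsupp.finsetSum_apply]
    by_cases hp : p.Prime
    · have h1 : f (L (Pi.single p 1)) = 0 := hf ⟨_, rfl⟩
      have h2 : ∑ d ∈ 𝒟, (if p ∈ d.primeFactors then (1 : ZMod 2) else 0) * t d = 0 := by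
        rw [hft] at h1
        rw [← Finset.sum_coe_sort 𝒟 (fun d => (if p ∈ d.primeFactors then (1 : ZMod 2) else 0) * t d)]
        refine Eq.trans (Finset.sum_congr rfl fun d _ => ?_) h1
        rw [hL]
        congr 1
        simp only [Pi.single_apply]
        rw [Finset.sum_ite_eq']
      have h3 : ∑ d ∈ T, (if p ∈ d.primeFactors then (1 : ZMod 2) else 0) = 0 := by
        refine Eq.trans ?_ h2
        change ∑ d ∈ 𝒟.filter (fun d => t d = 1), _ = _
        rw [Finset.sum_filter]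
        refine Finset.sum_congr rfl fun d _ => ?_
        rcases two_cases (t d) with h4 | h4
        · rw [h4, mul_zero, if_neg (by decide)]
        · rw [h4, mul_one, if_pos rfl]
      have h4 : ∀ d ∈ T, d.factorization p = if p ∈ d.primeFactors then 1 else 0 := by
        intro d hd
        by_cases h5 : p ∈ d.primeFactors
        · rw [if_pos h5]
          have h6 := (h𝒟 d (hTsub hd)).natFactorization_le_one p
          have h7 := hp.factorization_pos_of_dvd (hne d hd) (Nat.dvd_of_mem_primeFactors h5)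
          omega
        · rw [if_neg h5, ← Finsupp.notMem_support_iff, Nat.support_factorization]
          exact h5
      rw [Finset.sum_congr rfl h4]
      have h5 : ((∑ d ∈ T, (if p ∈ d.primeFactors then 1 else 0) : ℕ) : ZMod 2) = 0 := by
        refine Eq.trans ?_ h3
        push_cast
        rfl
      rwa [ZMod.natCast_eq_zero_iff_even] at h5
    · rw [Finset.sum_eq_zero fun d _ => Nat.factorization_eq_zero_of_not_prime d hp]
      exact Even.zero

lemma jac_prod (a : ℤ) (s : Finset ℕ) (hs : ∀ p ∈ s, p ≠ 0) :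
    jacobiSym a (∏ p ∈ s, p) = ∏ p ∈ s, jacobiSym a p := by
  induction s using Finset.induction_on with
  | empty => rw [Finset.prod_empty, Finset.prod_empty, jacobiSym.one_right]
  | insert q s hq ih =>
    rw [Finset.prod_insert hq, Finset.prod_insert hq,
      jacobiSym.mul_right' a (hs q (Finset.mem_insert_self q s))
        (Finset.prod_ne_zero_iff.2 fun p hp => hs p (Finset.mem_insert_of_mem hp)),
      ih fun p hp => hs p (Finset.mem_insert_of_mem hp)]

lemma exists_g {q : ℕ} (hq : q.Prime) (hq2 : q ≠ 2) (z : ZMod 2) :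
    ∃ g : ℕ, g.Coprime q ∧ jacobiSym g q = sg z := by
  rcases two_cases z with rfl | rfl
  · refine ⟨1, Nat.coprime_one_left q, ?_⟩
    rw [Nat.cast_one, jacobiSym.one_left, sg_zero]
  have : Fact q.Prime := ⟨hq⟩
  have hc : ringChar (ZMod q) ≠ 2 := by
    rw [ZMod.ringChar_zmod_n]
    exact hq2
  obtain ⟨x, hx⟩ := FiniteField.exists_nonsquare hc
  have hj : jacobiSym x.val q = -1 := by
    rw [← jacobiSym.legendreSym.to_jacobiSym, legendreSym.eq_neg_one_iff]
    have h1 : ((x.val : ℤ) : ZMod q) = x := by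
      rw [Int.cast_natCast, ZMod.natCast_zmod_val]
    rw [h1]
    exact hx
  refine ⟨x.val, ?_, ?_⟩
  · by_contra hcon
    have : NeZero q := ⟨hq.ne_zero⟩
    have h0 : jacobiSym (x.val : ℤ) q = 0 := (jacobiSym.eq_zero_iff_not_coprime).2 (by
      rw [Int.gcd_natCast_natCast]
      exact hcon)
    rw [h0] at hj
    norm_num at hj
  · rw [hj]
    rfl

theorem t_SURJ : Pool.Agent.N856.QL.S_SURJ := by
  intro 𝒟 h𝒟 hT ε hε
  obtain ⟨y, hy⟩ := solve 𝒟 (fun d hd => (h𝒟 d hd).1) hT (fun d => if ε d = 1 then 0 else 1)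
  let P : Finset ℕ := 𝒟.biUnion fun d => d.primeFactors
  have hP : ∀ p ∈ P, p.Prime ∧ Nat.Coprime p 120 := by
    intro p hp
    obtain ⟨d, hd, hpd⟩ := Finset.mem_biUnion.1 hp
    have h1 := Nat.prime_of_mem_primeFactors hpd
    have h2 := Nat.dvd_of_mem_primeFactors hpd
    have h3 : p.Coprime 30 := Nat.Coprime.coprime_dvd_left h2 (h𝒟 d hd).2
    refine ⟨h1, ?_⟩
    have h4 : (120 : ℕ) ∣ 30 ^ 3 := by norm_num
    exact Nat.Coprime.coprime_dvd_right h4 (Nat.Coprime.pow_right 3 h3)
  have hP2 : ∀ p ∈ P, p ≠ 2 := by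
    rintro p hp rfl
    have := (hP 2 hp).2
    norm_num at this
  have hg : ∀ p : ℕ, ∃ g : ℕ, p ∈ P → g.Coprime p ∧ jacobiSym g p = sg (y p) := by
    intro p
    by_cases hp : p ∈ P
    · obtain ⟨g, hg⟩ := exists_g (hP p hp).1 (hP2 p hp) (y p)
      exact ⟨g, fun _ => hg⟩
    · exact ⟨0, fun h => absurd h hp⟩
  choose g hg using hg
  let b := Nat.chineseRemainderOfFinset g (fun p => p) P (fun p hp => (hP p hp).1.ne_zero)
    (fun p hp q hq hpq => (Nat.coprime_primes (hP p hp).1 (hP q hq).1).2 hpq)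
  have hb : ∀ p ∈ P, (b : ℕ) ≡ g p [MOD p] := b.2
  have hco : Nat.Coprime 120 (∏ p ∈ P, p) :=
    Nat.Coprime.prod_right fun p hp => ((hP p hp).2).symm
  obtain ⟨a, ha1, ha2⟩ := Nat.chineseRemainder hco 1 b
  have ha3 : ∀ p ∈ P, a ≡ g p [MOD p] := fun p hp =>
    (ha2.of_dvd (Finset.dvd_prod_of_mem (fun p => p) hp)).trans (hb p hp)
  refine ⟨a, ha1, fun d hd => ?_⟩
  have hsub : ∀ p ∈ d.primeFactors, p ∈ P := fun p hp => Finset.mem_biUnion.2 ⟨d, hd, hp⟩
  have hdp : ∏ p ∈ d.primeFactors, p = d := Nat.prod_primeFactors_of_squarefree (h𝒟 d hd).1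
  have hj : ∀ p ∈ d.primeFactors, jacobiSym a p = sg (y p) := by
    intro p hp
    rw [← (hg p (hsub p hp)).2]
    refine jacobiSym.mod_left' ?_
    have h1 : a % p = g p % p := ha3 p (hsub p hp)
    exact_mod_cast h1
  constructor
  · rw [← hdp]
    refine Nat.Coprime.prod_right fun p hp => ?_
    exact (Nat.ModEq.gcd_eq (ha3 p (hsub p hp))).trans (hg p (hsub p hp)).1
  · conv_lhs => rw [← hdp]
    rw [jac_prod a _ fun p hp => (Nat.prime_of_mem_primeFactors hp).ne_zero,
      Finset.prod_congr rfl hj, ← sg_sum, hy d hd]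
    rcases hε d hd with h | h
    · rw [h, if_pos rfl]
      rfl
    · rw [h, if_neg (by norm_num)]
      rfl

end Pool.Agent.N866.QL.SURJ
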